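import Pool.Agent.U309.ZF.Stm3
import Pool.Agent.U750.ZF.DEDA

/-!
# Project ZF3, package DLX2 (helper637): the Hadamard formula for `ζ_K` at real points
-/

set_option autoImplicit false

open NumberField IsDedekindDomain Complex Filter Topology
open scoped ComplexConjugate

namespace Pool.Agent.U637.ZF

open Pool.Agent.U309.ZF Pool.Agent.U750.ZF
open Pool.Agent.Y773 Pool.Agent.Y773.G
open Pool.Agent.R362.HL Pool.Agent.R362.Near

/-- the Gamma factor on `[1, 3]` -/
theorem gamma_bound : ∃ G : ℝ, 0 ≤ G ∧ ∀ x : ℝ, 1 ≤ x → x ≤ 3 →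
    |(logDeriv Gammaℝ (x : ℂ)).re| ≤ G := by
  have hU : IsOpen {s : ℂ | 0 < s.re} := isOpen_lt continuous_const Complex.continuous_re
  have hd : DifferentiableOn ℂ Gammaℝ {s : ℂ | 0 < s.re} := fun s hs =>
    (GR_diff hs).differentiableWithinAt
  have hd' : ContinuousOn (deriv Gammaℝ) {s : ℂ | 0 < s.re} := (hd.deriv hU).continuousOn
  have hc : ContinuousOn (logDeriv Gammaℝ) {s : ℂ | 0 < s.re} := by
    have : logDeriv Gammaℝ = fun s => deriv Gammaℝ s / Gammaℝ s := by
      funext s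
      exact logDeriv_apply _ _
    rw [this]
    exact hd'.div hd.continuousOn fun s hs => Gammaℝ_ne_zero_of_re_pos hs
  have hcx : ContinuousOn (fun x : ℝ => (logDeriv Gammaℝ (x : ℂ)).re) (Set.Icc 1 3) := by
    refine Complex.continuous_re.comp_continuousOn (hc.comp Complex.continuous_ofReal.continuousOn ?_)
    intro x hx
    change 0 < (x : ℂ).re
    rw [Complex.ofReal_re]
    linarith [hx.1]
  obtain ⟨G, hG⟩ := isCompact_Icc.exists_bound_of_continuousOn hcx
  refine ⟨max G 0, le_max_right _ _, fun x h1 h3 => ?_⟩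
  have := hG x ⟨h1, h3⟩
  rw [Real.norm_eq_abs] at this
  exact this.trans (le_max_left _ _)

/-- the derivative of the translate -/
theorem logDeriv_translate {X : ℂ → ℂ} (hX : Differentiable ℂ X) {c : ℂ} (hc0 : c ≠ 0) (z : ℂ) :
    logDeriv (fun z => c * X (1 / 2 + (z + 1 / 2))) z = logDeriv X (1 + z) := by
  have e : (1 : ℂ) / 2 + (z + 1 / 2) = 1 + z := by ring
  have h1 : deriv (fun z => c * X (1 / 2 + (z + 1 / 2))) z = c * deriv X (1 + z) := by
    have h2 : HasDerivAt (fun z : ℂ => 1 / 2 + (z + 1 / 2)) 1 z :=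
      ((hasDerivAt_id z).add_const _).const_add _
    have h3 : HasDerivAt X (deriv X (1 + z)) (1 / 2 + (z + 1 / 2)) := by
      rw [e]
      exact (hX (1 + z)).hasDerivAt
    have h4 := (HasDerivAt.comp (h₂ := X) (h := fun z : ℂ => 1 / 2 + (z + 1 / 2)) z h3 h2).const_mul c
    rw [mul_one] at h4
    exact h4.deriv
  rw [logDeriv_apply, logDeriv_apply, h1]
  simp only [e]
  rw [mul_div_mul_left _ _ hc0]

theorem dich (hHK : S_HK) {K : Type} [Field K] [NumberField K] {X : ℂ → ℂ} (hX : IsXi K X)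
    {δ₁ δ₂ : ℝ} (h1 : 0 < δ₁) (h12 : δ₁ ≤ δ₂) :
    2 / (3 * δ₂) ≤ (logDeriv X ((1 + δ₂ : ℝ) : ℂ)).re ∨
      (logDeriv X ((1 + δ₁ : ℝ) : ℂ)).re ≤ 9 * (logDeriv X ((1 + δ₂ : ℝ) : ℂ)).re := by
  have h2 : 0 < δ₂ := by linarith
  by_cases hz : ∃ z : ℂ, ‖z‖ ≤ δ₂ / 2 ∧ X (1 + z) = 0
  · left
    obtain ⟨z, hz1, hz0⟩ := hz
    have hst := hX.strip0 hz0
    have hre1 : (1 + z).re = 1 + z.re := by simp
    rw [hre1] at hst
    have hs : 1 < (((1 + δ₂ : ℝ) : ℂ)).re := by
      rw [Complex.ofReal_re]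
      linarith
    have key := hX.sum_le {1 + z} (fun ρ hρ => by
      rw [Finset.mem_singleton] at hρ
      rw [hρ, hre1]
      exact hst) hs
    rw [Finset.sum_singleton] at key
    have hne : ∃ w, X w ≠ 0 := ⟨2, hX.ne_zero_right (by norm_num)⟩
    have hord : 1 ≤ analyticOrderNatAt X (1 + z) := by
      rcases Nat.eq_zero_or_pos (analyticOrderNatAt X (1 + z)) with h | h
      · exfalso
        have h3 := Nat.cast_analyticOrderNatAt (ord_ne_top hX.diff hne (1 + z))
        rw [h] at h3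
        have h4 : analyticOrderAt X (1 + z) = 0 := by
          rw [← h3]
          rfl
        exact ((hX.diff.analyticAt (1 + z)).analyticOrderAt_eq_zero.1 h4) hz0
      · exact h
    have hordR : (1 : ℝ) ≤ analyticOrderNatAt X (1 + z) := by exact_mod_cast hord
    have hnorm : z.re * z.re + z.im * z.im ≤ (δ₂ / 2) ^ 2 := by
      have h3 : ‖z‖ ^ 2 ≤ (δ₂ / 2) ^ 2 := by
        exact pow_le_pow_left₀ (norm_nonneg z) hz1 2
      rw [← Complex.normSq_eq_norm_sq, Complex.normSq_apply] at h3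
      exact h3
    have hz_re : z.re ≤ 0 := by linarith [hst.2]
    have hz_re2 : -z.re ≤ δ₂ / 2 := by
      have h3 := Complex.abs_re_le_norm z
      have h4 := neg_abs_le z.re
      linarith
    have hbound : 2 / (3 * δ₂) ≤ (1 / (((1 + δ₂ : ℝ) : ℂ) - (1 + z))).re := by
      have e : (((1 + δ₂ : ℝ) : ℂ) - (1 + z)) = (δ₂ : ℂ) - z := by
        push_cast
        ring
      rw [e, one_div, Complex.inv_re, Complex.normSq_apply, Complex.sub_re, Complex.sub_im,
        Complex.ofReal_re, Complex.ofReal_im]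
      have hpos : 0 < (δ₂ - z.re) * (δ₂ - z.re) + (0 - z.im) * (0 - z.im) := by
        have h3 : 0 < δ₂ - z.re := by linarith
        nlinarith [mul_pos h3 h3, mul_self_nonneg (0 - z.im)]
      rw [div_le_div_iff₀ (by positivity) hpos]
      nlinarith [mul_nonneg h2.le (show (0 : ℝ) ≤ δ₂ / 2 + z.re by linarith)]
    have h5 : (1 / (((1 + δ₂ : ℝ) : ℂ) - (1 + z))).re ≤
        (analyticOrderNatAt X (1 + z) : ℝ) * (1 / (((1 + δ₂ : ℝ) : ℂ) - (1 + z))).re := by
      have h6 : 0 ≤ (1 / (((1 + δ₂ : ℝ) : ℂ) - (1 + z))).re := by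
        refine le_trans ?_ hbound
        positivity
      nlinarith
    exact hbound.trans (h5.trans key)
  · right
    push Not at hz
    obtain ⟨c, hc0, hc⟩ := hX.rot
    obtain ⟨Y, hY⟩ : ∃ Y : ℂ → ℂ, Y = fun z => c * X (1 / 2 + z) := ⟨_, rfl⟩
    have hre : ∀ z : ℂ, (1 / 2 + z).re = 1 / 2 + z.re := by
      intro z
      have : (1 / 2 : ℂ) = ((1 / 2 : ℝ) : ℂ) := by push_cast; ring
      rw [Complex.add_re, this, Complex.ofReal_re]
    have hYd : Differentiable ℂ Y := by
      rw [hY]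
      exact (hX.diff.comp (by fun_prop)).const_mul c
    have hYs : ∀ z : ℂ, Y (-(conj z)) = conj (Y z) := by
      rw [hY]
      exact hc
    have hYg : Gr Y := by
      rw [hY]
      exact hX.gr hc
    have hYst : ∀ z : ℂ, Y z = 0 → |z.re| ≤ 1 / 2 := by
      intro z hz
      rw [hY] at hz
      have h1 := hX.strip0 ((mul_eq_zero.1 hz).resolve_left hc0)
      rw [hre] at h1
      rw [abs_le]
      constructor <;> linarith [h1.1, h1.2]
    have hYne : ∃ z, Y z ≠ 0 := ⟨1, fun h0 => by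
      have := hYst 1 h0
      norm_num at this⟩
    obtain ⟨Q, hQ, hlim⟩ := Pool.Agent.Y275.GL.had1 Y hYd hYs hYne hYg hYst
    have hre2 : ∀ z : ℂ, (z + 1 / 2).re = z.re + 1 / 2 := by
      intro z
      have : (1 / 2 : ℂ) = ((1 / 2 : ℝ) : ℂ) := by push_cast; ring
      rw [Complex.add_re, this, Complex.ofReal_re]
    have hcont : Continuous fun z : ℂ => z + 1 / 2 := by fun_prop
    have key := hHK (fun z => Y (z + 1 / 2))
      (fun N => (Q N).comp (Polynomial.X + Polynomial.C (1 / 2)))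
      (fun N z hr => by
        rw [Polynomial.IsRoot.def, Polynomial.eval_comp, Polynomial.eval_add, Polynomial.eval_X,
          Polynomial.eval_C] at hr
        have h3 := (abs_le.1 (hQ N _ hr)).2
        rw [hre2] at h3
        linarith)
      (by
        have h3 := hlim.comp (fun z : ℂ => z + 1 / 2) hcont
        have e : (fun (N : ℕ) (z : ℂ) => ((Q N).comp (Polynomial.X + Polynomial.C (1 / 2))).eval z) =
            fun N => (fun z : ℂ => (Q N).eval z) ∘ fun z : ℂ => z + 1 / 2 := by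
          funext N z
          rw [Polynomial.eval_comp, Polynomial.eval_add, Polynomial.eval_X, Polynomial.eval_C]
          rfl
        rw [e]
        exact h3)
      (fun z hz h0 => by
        have h3 := (abs_le.1 (hYst _ h0)).2
        rw [hre2] at h3
        linarith)
      δ₁ δ₂ h1 h12
      (fun z hz1 h0 => by
        apply hz z hz1
        rw [hY] at h0
        have h3 := (mul_eq_zero.1 h0).resolve_left hc0
        have e : (1 : ℂ) / 2 + (z + 1 / 2) = 1 + z := by ring
        rw [e] at h3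
        exact h3)
    have e : (fun z => Y (z + 1 / 2)) = fun z => c * X (1 / 2 + (z + 1 / 2)) := by
      rw [hY]
    rw [e, logDeriv_translate hX.diff hc0, logDeriv_translate hX.diff hc0] at key
    have e1 : ∀ δ : ℝ, ((1 + δ : ℝ) : ℂ) = 1 + (δ : ℂ) := by
      intro δ
      push_cast
      ring
    rw [e1, e1]
    exact key

theorem t_DLX2 : S_DLX2 := by
  intro hHK n
  obtain ⟨G, hG0, hG⟩ := gamma_bound
  refine ⟨n * G + 1, by positivity, ?_⟩
  intro K _ _ hn
  obtain ⟨X, hX'⟩ := exists_xi K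
  have hX : IsXi K X := hX'
  refine ⟨fun δ => (logDeriv X ((1 + δ : ℝ) : ℂ)).re, fun δ hδ => ?_, fun δ hδ hδ1 => ?_,
    fun δ₁ δ₂ h1 h12 _ => dich hHK hX h1 h12⟩
  · have h2 := hX.sum_le ∅ (by simp) (s := ((1 + δ : ℝ) : ℂ)) (by
      rw [Complex.ofReal_re]
      linarith)
    rw [Finset.sum_empty] at h2
    exact h2
  · have hk := (key_sum (E := K) 0 hδ).tsum_eq
    have e0 : (fun x : HeightOneSpectrum (𝓞 K) × ℕ =>
        Real.cos (0 * ((x.2 + 1) * Real.log (q x.1))) * wt δ x) = fun x => wt δ x := by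
      funext x
      rw [zero_mul, Real.cos_zero, one_mul]
    have e1 : (((1 + δ : ℝ) : ℂ) + ((0 : ℝ) : ℂ) * I) = ((1 + δ : ℝ) : ℂ) := by
      push_cast
      ring
    rw [e0, e1] at hk
    rw [hk]
    have hs : 1 < (((1 + δ : ℝ) : ℂ)).re := by
      rw [Complex.ofReal_re]
      linarith
    have h3 := hX.logDeriv_eq hs
    have h4 : (logDeriv X ((1 + δ : ℝ) : ℂ)).re = (1 / (((1 + δ : ℝ) : ℂ))).re +
        (1 / (((1 + δ : ℝ) : ℂ) - 1)).re + lgd K / 2 +
        ∑ φ : K →+* ℂ, (logDeriv Gammaℝ (((1 + δ : ℝ) : ℂ) +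
          (ex (fun _ : InfinitePlace K => 0) φ : ℕ))).re +
        (logDeriv (LI (triv K)) ((1 + δ : ℝ) : ℂ)).re := by
      rw [h3, Complex.add_re, Complex.add_re, Complex.add_re, Complex.add_re, Complex.re_sum,
        Complex.ofReal_re]
    have h5 : (1 / (((1 + δ : ℝ) : ℂ) - 1)).re = 1 / δ := by
      have e : (((1 + δ : ℝ) : ℂ) - 1) = ((δ : ℝ) : ℂ) := by
        push_cast
        ring
      rw [e, ofReal_inv_re]
    rw [ofReal_inv_re, h5] at h4
    have h6 : |∑ φ : K →+* ℂ, (logDeriv Gammaℝ (((1 + δ : ℝ) : ℂ) +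
          (ex (fun _ : InfinitePlace K => 0) φ : ℕ))).re| ≤ n * G := by
      refine (Finset.abs_sum_le_sum_abs _ _).trans ?_
      refine (Finset.sum_le_card_nsmul _ _ G fun φ _ => ?_).trans (le_of_eq ?_)
      · obtain ⟨k, hk⟩ : ∃ k : ℕ, k = ex (fun _ : InfinitePlace K => 0) φ := ⟨_, rfl⟩
        have hk1 : k ≤ 1 := by
          rw [hk]
          unfold ex
          split_ifs <;> norm_num
        have hk1' : (k : ℝ) ≤ 1 := by exact_mod_cast hk1
        have hk0 : (0 : ℝ) ≤ k := Nat.cast_nonneg k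
        rw [← hk]
        have e : ((1 + δ : ℝ) : ℂ) + ((k : ℕ) : ℂ) = ((1 + δ + k : ℝ) : ℂ) := by
          push_cast
          ring
        rw [e]
        exact hG _ (by linarith) (by linarith)
      · rw [Finset.card_univ, card_emb, nsmul_eq_mul, hn]
    have h9 : lgd K = ld K := by
      unfold lgd ld
      rw [Nat.cast_natAbs, Int.cast_abs]
    have h10 : 0 ≤ ld K := by
      rw [← h9]
      unfold lgd
      exact Real.log_natCast_nonneg _
    have h7 : 0 ≤ 1 / (1 + δ) := by positivity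
    have h8 : 1 / (1 + δ) ≤ 1 := by
      rw [div_le_one (by linarith)]
      linarith
    rw [h9] at h4
    have h11 := abs_le.1 h6
    have h12 : 0 ≤ (n : ℝ) * G := by positivity
    have h13 : 0 ≤ (n : ℝ) * G * ld K := by positivity
    rw [abs_le]
    constructor
    · simp only
      nlinarith [h11.1, h11.2]
    · simp only
      nlinarith [h11.1, h11.2]

end Pool.Agent.U637.ZF
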